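import Pool.Agent.H8.AV3.Stmts6

/-!
# Three-descent over `F(t)`: bases adapted to a flag

`FLDStmt`: let `I` be a Bezout domain with fraction field `K` (here `F[t]` or a valuation ring) and
`A`, `B` independent vectors of `K³`. There is a matrix invertible over `I` whose second column is a
multiple of `A` and whose first column is in the span of `A` and `B`, but not a multiple of `A`.
-/

set_option autoImplicit false

namespace Pool.Agent.H47.AV3C

open Polynomial Matrix Pool.AVR Pool.AV3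

section Gen

variable {K : Type} [Field K]

/-- The Bezout property of the subring `I` of the field `K`. -/
def Bz (I : Subring K) : Prop :=
  ∀ x y : K, (x ≠ 0 ∨ y ≠ 0) → ∃ t p q a b : K, t ≠ 0 ∧ p ∈ I ∧ q ∈ I ∧ a ∈ I ∧ b ∈ I ∧
    p = t * x ∧ q = t * y ∧ a * p + b * q = 1

/-- Matrices over `I` with determinant one. -/
def SI (I : Subring K) (g : Matrix (Fin 3) (Fin 3) K) : Prop := (∀ i j, g i j ∈ I) ∧ g.det = 1

theorem SI.mul {I : Subring K} {g h : Matrix (Fin 3) (Fin 3) K} (hg : SI I g) (hh : SI I h) :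
    SI I (g * h) := by
  refine ⟨fun i j => ?_, by rw [det_mul, hg.2, hh.2, one_mul]⟩
  rw [Matrix.mul_apply]
  exact Subring.sum_mem _ fun k _ => Subring.mul_mem _ (hg.1 i k) (hh.1 k j)

/-- A matrix over `I` with first column `t (x, 0, y)` and second column `e₁`. -/
theorem lem02 {I : Subring K} (hI : Bz I) (x y : K) (h : x ≠ 0 ∨ y ≠ 0) :
    ∃ (M : Matrix (Fin 3) (Fin 3) K) (t : K), SI I M ∧ t ≠ 0 ∧
      M *ᵥ ![1, 0, 0] = ![t * x, 0, t * y] ∧ ∀ z, M *ᵥ ![0, z, 0] = ![0, z, 0] := by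
  obtain ⟨t, p, q, a, b, ht, hp, hq, ha, hb, e1, e2, e3⟩ := hI x y h
  refine ⟨!![p, 0, -b; 0, 1, 0; q, 0, a], t, ⟨?_, ?_⟩, ht, ?_, ?_⟩
  · intro i j
    fin_cases i <;> fin_cases j <;> simp [hp, hq, ha, hb, I.zero_mem, I.one_mem]
  · rw [Matrix.det_fin_three]
    simp
    linear_combination e3
  · funext i
    rw [mulVec3]
    fin_cases i <;> simp [e1, e2]
  · intro z
    funext i
    rw [mulVec3]
    fin_cases i <;> simp

/-- A matrix over `I` with second column `t (x, y, 0)`. -/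
theorem lem01 {I : Subring K} (hI : Bz I) (x y : K) (h : x ≠ 0 ∨ y ≠ 0) :
    ∃ (M : Matrix (Fin 3) (Fin 3) K) (t : K), SI I M ∧ t ≠ 0 ∧
      M *ᵥ ![0, 1, 0] = ![t * x, t * y, 0] := by
  obtain ⟨t, p, q, a, b, ht, hp, hq, ha, hb, e1, e2, e3⟩ := hI x y h
  refine ⟨!![b, p, 0; -a, q, 0; 0, 0, 1], t, ⟨?_, ?_⟩, ht, ?_⟩
  · intro i j
    fin_cases i <;> fin_cases j <;> simp [hp, hq, ha, hb, I.zero_mem, I.one_mem]
  · rw [Matrix.det_fin_three]
    simp
    linear_combination e3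
  · funext i
    rw [mulVec3]
    fin_cases i <;> simp [e1, e2]

/-- A vector completed to a basis. -/
theorem compl1 {I : Subring K} (hI : Bz I) (A : Fin 3 → K) (hA : A ≠ 0) :
    ∃ (M : Matrix (Fin 3) (Fin 3) K) (s : K), SI I M ∧ s ≠ 0 ∧ M *ᵥ ![0, 1, 0] = s • A := by
  by_cases h : A 0 ≠ 0 ∨ A 2 ≠ 0
  · obtain ⟨M, t, hM, ht, h1, h2⟩ := lem02 hI (A 0) (A 2) h
    obtain ⟨N, t', hN, ht', h3⟩ := lem01 hI t⁻¹ (A 1) (Or.inl (inv_ne_zero ht))
    refine ⟨M * N, t', hM.mul hN, ht', ?_⟩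
    rw [← Matrix.mulVec_mulVec, h3]
    have h4 : (![t' * t⁻¹, t' * A 1, 0] : Fin 3 → K) =
        (t' * t⁻¹) • ![1, 0, 0] + ![0, t' * A 1, 0] := by
      funext i
      fin_cases i <;> simp
    rw [h4, Matrix.mulVec_add, Matrix.mulVec_smul, h1, h2]
    funext i
    fin_cases i
    · simp
      field_simp
    · simp
    · simp
      field_simp
  · push Not at h
    have h1 : A 1 ≠ 0 := by
      intro h1
      apply hA
      funext i
      fin_cases i
      · exact h.1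
      · exact h1
      · exact h.2
    refine ⟨1, (A 1)⁻¹, ⟨fun i j => ?_, det_one⟩, inv_ne_zero h1, ?_⟩
    · rw [Matrix.one_apply]
      split_ifs
      · exact I.one_mem
      · exact I.zero_mem
    · rw [Matrix.one_mulVec]
      funext i
      fin_cases i
      · simp [h.1]
      · simp [h1]
      · simp [h.2]

/-- The main statement for a Bezout subring. -/
theorem flag {I : Subring K} (hI : Bz I) (A B : Fin 3 → K) (hA : A ≠ 0)
    (hB : ∀ r : K, B ≠ r • A) :
    ∃ (γ : Matrix (Fin 3) (Fin 3) K) (s u r : K), SI I γ ∧ s ≠ 0 ∧ r ≠ 0 ∧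
      γ *ᵥ (e1 : Fin 3 → K) = s • A ∧ γ *ᵥ (![1, 0, 0] : Fin 3 → K) = u • A + r • B := by
  obtain ⟨M, s, hM, hs, h1⟩ := compl1 hI A hA
  have hu : IsUnit M.det := by
    rw [hM.2]
    exact isUnit_one
  set B' : Fin 3 → K := M⁻¹ *ᵥ B with hB'
  have hMB : M *ᵥ B' = B := by
    rw [hB', Matrix.mulVec_mulVec, Matrix.mul_nonsing_inv M hu, Matrix.one_mulVec]
  have h2 : B' 0 ≠ 0 ∨ B' 2 ≠ 0 := by
    by_contra h2
    push Not at h2
    apply hB (B' 1 * s)
    have h3 : B' = B' 1 • ![0, 1, 0] := by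
      funext i
      fin_cases i
      · simp [h2.1]
      · simp
      · simp [h2.2]
    have h4 : M *ᵥ B' = B' 1 • (s • A) := by
      conv_lhs => rw [h3]
      rw [Matrix.mulVec_smul, h1]
    rw [← hMB, h4, smul_smul]
  obtain ⟨N, t, hN, ht, h3, h4⟩ := lem02 hI (B' 0) (B' 2) h2
  refine ⟨M * N, s, -(t * B' 1 * s), t, hM.mul hN, hs, ht, ?_, ?_⟩
  · rw [← Matrix.mulVec_mulVec]
    have h5 : (e1 : Fin 3 → K) = ![0, 1, 0] := rfl
    rw [h5, h4 1, h1]
  · rw [← Matrix.mulVec_mulVec, h3]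
    have h5 : (![t * B' 0, 0, t * B' 2] : Fin 3 → K) =
        t • B' - (t * B' 1) • ![0, 1, 0] := by
      funext i
      fin_cases i <;> simp
    rw [h5, Matrix.mulVec_sub, Matrix.mulVec_smul, Matrix.mulVec_smul, hMB, h1]
    funext i
    simp only [Pi.sub_apply, Pi.add_apply, Pi.smul_apply, smul_eq_mul]
    ring

end Gen

/-- Polynomials have the Bezout property. -/
theorem bz_poly (F : Type) [Field F] :
    Bz (algebraMap F[X] (RatFunc F)).range := by
  classical
  intro x y hxy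
  set φ := algebraMap F[X] (RatFunc F) with hφ
  obtain ⟨d, hd, hx, hy⟩ : ∃ d : F[X], d ≠ 0 ∧ (∃ x₁, φ x₁ = φ d * x) ∧
      ∃ y₁, φ y₁ = φ d * y := by
    refine ⟨x.denom * y.denom, mul_ne_zero (RatFunc.denom_ne_zero x) (RatFunc.denom_ne_zero y),
      ⟨x.num * y.denom, ?_⟩, ⟨x.denom * y.num, ?_⟩⟩
    · have h1 : φ x.num / φ x.denom = x := RatFunc.num_div_denom x
      have h2 : φ x.denom ≠ 0 := RatFunc.algebraMap_ne_zero (RatFunc.denom_ne_zero x)
      rw [div_eq_iff h2] at h1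
      rw [map_mul, map_mul, h1]
      ring
    · have h1 : φ y.num / φ y.denom = y := RatFunc.num_div_denom y
      have h2 : φ y.denom ≠ 0 := RatFunc.algebraMap_ne_zero (RatFunc.denom_ne_zero y)
      rw [div_eq_iff h2] at h1
      rw [map_mul, map_mul, h1]
      ring
  obtain ⟨x₁, hx₁⟩ := hx
  obtain ⟨y₁, hy₁⟩ := hy
  have hφd : φ d ≠ 0 := RatFunc.algebraMap_ne_zero hd
  set g := EuclideanDomain.gcd x₁ y₁ with hg
  have hg0 : g ≠ 0 := by
    intro h0
    rw [hg, EuclideanDomain.gcd_eq_zero_iff] at h0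
    rcases hxy with h | h
    · apply h
      rw [h0.1, map_zero] at hx₁
      rcases mul_eq_zero.1 hx₁.symm with h1 | h1
      · exact absurd h1 hφd
      · exact h1
    · apply h
      rw [h0.2, map_zero] at hy₁
      rcases mul_eq_zero.1 hy₁.symm with h1 | h1
      · exact absurd h1 hφd
      · exact h1
  obtain ⟨p, hp⟩ := EuclideanDomain.gcd_dvd_left x₁ y₁
  obtain ⟨q, hq⟩ := EuclideanDomain.gcd_dvd_right x₁ y₁
  have hbz := EuclideanDomain.gcd_eq_gcd_ab x₁ y₁
  rw [← hg] at hp hq hbz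
  have hφg : φ g ≠ 0 := RatFunc.algebraMap_ne_zero hg0
  refine ⟨φ d / φ g, φ p, φ q, φ (EuclideanDomain.gcdA x₁ y₁), φ (EuclideanDomain.gcdB x₁ y₁),
    div_ne_zero hφd hφg, ⟨p, rfl⟩, ⟨q, rfl⟩, ⟨_, rfl⟩, ⟨_, rfl⟩, ?_, ?_, ?_⟩
  · have h1 : φ g * φ p = φ d * x := by rw [← map_mul, ← hp, hx₁]
    field_simp
    linear_combination h1
  · have h1 : φ g * φ q = φ d * y := by rw [← map_mul, ← hq, hy₁]
    field_simp
    linear_combination h1
  · have h1 : EuclideanDomain.gcdA x₁ y₁ * p + EuclideanDomain.gcdB x₁ y₁ * q = 1 := by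
      apply mul_left_cancel₀ hg0
      linear_combination (-EuclideanDomain.gcdA x₁ y₁) * hp -
        EuclideanDomain.gcdB x₁ y₁ * hq - hbz
    rw [← map_mul, ← map_mul, ← map_add, h1, map_one]

/-- Valuation rings have the Bezout property. -/
theorem bz_val {K : Type} [Field K] (V : ValuationSubring K) : Bz V.toSubring := by
  intro x y hxy
  by_cases hy : y = 0
  · have hx : x ≠ 0 := by
      rcases hxy with h | h
      · exact h
      · exact absurd hy h
    refine ⟨x⁻¹, 1, 0, 1, 0, inv_ne_zero hx, V.one_mem, V.zero_mem, V.one_mem, V.zero_mem, ?_, ?_,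
      ?_⟩
    · field_simp
    · rw [hy, mul_zero]
    · ring
  rcases V.mem_or_inv_mem (x / y) with h | h
  · refine ⟨y⁻¹, x / y, 1, 0, 1, inv_ne_zero hy, h, V.one_mem, V.zero_mem, V.one_mem, ?_, ?_, ?_⟩
    · rw [div_eq_mul_inv]
      ring
    · field_simp
    · ring
  · by_cases hx : x = 0
    · refine ⟨y⁻¹, 0, 1, 0, 1, inv_ne_zero hy, V.zero_mem, V.one_mem, V.zero_mem, V.one_mem, ?_,
        ?_, ?_⟩
      · rw [hx, mul_zero]
      · field_simp
      · ring
    · rw [inv_div] at h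
      refine ⟨x⁻¹, 1, y / x, 1, 0, inv_ne_zero hx, V.one_mem, h, V.one_mem, V.zero_mem, ?_, ?_,
        ?_⟩
      · field_simp
      · rw [div_eq_mul_inv]
        ring
      · ring

theorem fld_thm : Pool.AV3.FLDStmt := by
  refine ⟨?_, ?_⟩
  · intro F _ A B hA hB
    obtain ⟨γ, s, u, r, hγ, hs, hr, h1, h2⟩ := flag (bz_poly F) A B hA hB
    choose γ' hγ' using fun i j => hγ.1 i j
    have hm : (Matrix.of γ').map (algebraMap F[X] (RatFunc F)) = γ := by
      ext i j
      exact hγ' i j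
    refine ⟨Matrix.of γ', s, u, r, ?_, hs, hr, by rw [hm]; exact h1, by rw [hm]; exact h2⟩
    have hd : algebraMap F[X] (RatFunc F) (Matrix.of γ').det = 1 := by
      rw [RingHom.map_det, RingHom.mapMatrix_apply, hm, hγ.2]
    have hd' : (Matrix.of γ').det = 1 := by
      apply RatFunc.algebraMap_injective F
      rw [hd, map_one]
    rw [hd']
    exact isUnit_one
  · intro K _ I π hI A B hA hB
    obtain ⟨V, hV⟩ := hI.val
    obtain ⟨γ, s, u, r, hγ, hs, hr, h1, h2⟩ := flag (bz_val V) A B hA hB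
    have hVI : ∀ x, x ∈ V → x ∈ I := fun x hx => by
      rw [← hV]
      exact hx
    refine ⟨γ, s, u, r, ⟨fun i j => hVI _ (hγ.1 i j), ?_⟩, hs, hr, h1, h2⟩
    rw [hγ.2]
    refine ⟨one_ne_zero, hVI _ V.one_mem, ?_⟩
    rw [inv_one]
    exact hVI _ V.one_mem

end Pool.Agent.H47.AV3C
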