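import Pool.Agent.H8.AV3.Stmts6

/-!
# Three-descent over `F(t)`: flexes at a place

`LFLStmt`: the discriminant of an integral cubic with a flex line `⟨v, w⟩` is divisible by the
product of the invariants of the flex.
-/

set_option autoImplicit false

namespace Pool.Agent.H47.AV3C

open Polynomial Matrix Pool.AVR Pool.AV3

theorem Jc_map {R S : Type} [CommRing R] [CommRing S] (φ : R →+* S) (τ : R) (c : Fin 10 → R) :
    Jc (φ τ) (fun i => φ (c i)) =
      (φ (Jc τ c).1, φ (Jc τ c).2.1, φ (Jc τ c).2.2) := by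
  simp only [Jc, jb4, jb6, map_add, map_sub, map_mul, map_pow, map_neg, map_ofNat]

theorem dsc_map {R S : Type} [CommRing R] [CommRing S] (φ : R →+* S) (f : R × R × R) :
    dsc (φ f.1, φ f.2.1, φ f.2.2) = φ (dsc f) := by
  simp only [dsc, disc, map_add, map_sub, map_mul, map_pow, map_ofNat]

section Flex

variable {K : Type} [Field K]

/-- The coefficients of the form in a basis adapted to the flex. -/
theorem flex_coeffs (c : Fin 10 → K) (v w : Fin 3 → K) (μ κ s u r : K)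
    (γ : Matrix (Fin 3) (Fin 3) K) (_hs : s ≠ 0) (_hr : r ≠ 0) (_hd : γ.det ≠ 0)
    (t1 : tev c v = 0) (t2 : tder c v w = 0) (t3 : tder c w v = 0) (t4 : tev c w = κ)
    (hμ : ∀ x : Fin 3 → K, tder c v x = μ * (crossProduct v w ⬝ᵥ x))
    (g1 : γ *ᵥ (e1 : Fin 3 → K) = s • v)
    (g0 : γ *ᵥ (![1, 0, 0] : Fin 3 → K) = u • v + r • w) :
    tsub c γ 1 = 0 ∧ tsub c γ 3 = 0 ∧ tsub c γ 6 = 0 ∧ tsub c γ 0 = r ^ 3 * κ ∧
      tsub c γ 7 * r = -(s * μ * γ.det) := by
  have c0 : (fun i => γ i 0) = u • v + r • w := by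
    rw [← g0]
    funext i
    rw [mulVec3]
    simp
  have c1 : (fun i => γ i 1) = s • v := by
    rw [← g1]
    funext i
    rw [mulVec3]
    simp [e1]
  have e0 : tsub c γ 0 = tev c (fun i => γ i 0) := rfl
  have e1' : tsub c γ 1 = tder c (fun i => γ i 0) (fun i => γ i 1) := rfl
  have e3 : tsub c γ 3 = tder c (fun i => γ i 1) (fun i => γ i 0) := rfl
  have e6 : tsub c γ 6 = tev c (fun i => γ i 1) := rfl
  have e7 : tsub c γ 7 = tder c (fun i => γ i 1) (fun i => γ i 2) := rfl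
  have h3 : tder c v v = 3 * tev c v := tder_self c v
  have h4 : tder c w w = 3 * tev c w := tder_self c w
  refine ⟨?_, ?_, ?_, ?_, ?_⟩
  · rw [e1', c0, c1, tder_smul_right]
    have h5 : tder c (u • v + r • w) v =
        u ^ 2 * (3 * tev c v) + 2 * u * r * tder c v w + r ^ 2 * tder c w v := by
      simp only [tder, tev, Pi.add_apply, Pi.smul_apply, smul_eq_mul]
      ring
    rw [h5, t1, t2, t3]
    ring
  · rw [e3, c0, c1, tder_smul_left, tder_add_right, tder_smul_right, tder_smul_right, h3, t1, t2]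
    ring
  · rw [e6, c1, tev_smul_vec, t1, mul_zero]
  · rw [e0, c0, AV3.taylor, t1, t2, t3, t4]
    ring
  · rw [e7, c1, tder_smul_left, hμ]
    have h5 : γ.det = -(r * s * (crossProduct v w ⬝ᵥ fun i => γ i 2)) := by
      have a0 : ∀ i, γ i 0 = u * v i + r * w i := fun i => by
        have := congrFun c0 i
        simpa using this
      have a1 : ∀ i, γ i 1 = s * v i := fun i => by
        have := congrFun c1 i
        simpa using this
      rw [Matrix.det_fin_three, cross_apply]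
      simp only [dotProduct, Fin.sum_univ_three, Matrix.cons_val, a0, a1]
      ring
    rw [h5]
    ring

end Flex

theorem lfl_thm (hFLD : Pool.AV3.FLDStmt) (hFCT : Pool.AV3.FCTStmt) (hJER : Pool.AV3.JERStmt) :
    Pool.AV3.LFLStmt := by
  intro K _ I π hI h2 h2I c v w μ κ a hc hv hw t1 t2 t3 t4 hμ ha hva hua hdsc
  obtain ⟨γ, s, u, r, hγ, hs, hr, g1, g0⟩ := hFLD.2 K I π hI v w hv hw
  obtain ⟨V, rfl⟩ := hI.val
  have hd : γ.det ≠ 0 := hγ.2.1
  obtain ⟨f1, f3, f6, f0, f7⟩ := flex_coeffs c v w μ κ s u r γ hs hr hd t1 t2 t3 t4 hμ g1 g0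
  -- the objects over the valuation ring
  let ψ : V →+* K := V.subtype
  have hψ : ∀ x : V, ψ x = (x : K) := fun _ => rfl
  have hinj : Function.Injective ψ := fun x y h => Subtype.ext h
  let cV : Fin 10 → V := fun i => ⟨c i, hc i⟩
  let γV : Matrix (Fin 3) (Fin 3) V := Matrix.of fun i j => ⟨γ i j, hγ.1 i j⟩
  let D' : V := ⟨γ.det⁻¹, hγ.2.2.2⟩
  let τV : V := ⟨(2 : K)⁻¹, h2I⟩
  have hγm : γV.map ψ = γ := by
    ext i j
    rfl
  have hD : ψ γV.det = γ.det := by
    rw [RingHom.map_det, RingHom.mapMatrix_apply, hγm]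
  have hDD : γV.det * D' = 1 := by
    apply hinj
    rw [map_mul, hD, map_one]
    exact mul_inv_cancel₀ hd
  have hτ : 2 * τV = 1 := by
    apply hinj
    rw [map_mul, map_one, map_ofNat]
    exact mul_inv_cancel₀ h2
  let c'' : Fin 10 → V := D' • tsub cV γV
  have hE : Eqv γV cV c'' := by
    refine ⟨IsUnit.of_mul_eq_one _ hDD, ?_⟩
    show tsub cV γV = γV.det • D' • tsub cV γV
    rw [smul_smul, hDD, one_smul]
  obtain ⟨η, hη⟩ := hJER V τV hτ γV cV c'' hE
  have hds : dsc (Jc τV c'') = dsc (Jc τV cV) := by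
    rw [hη, dsc_sh]
  have hc'' : ∀ i, ψ (c'' i) = γ.det⁻¹ * tsub c γ i := by
    intro i
    have h1 := congrFun (map_tsub ψ cV γV) i
    rw [hγm] at h1
    have h2 : ψ (c'' i) = γ.det⁻¹ * ψ (tsub cV γV i) := by
      show ψ (D' * tsub cV γV i) = _
      rw [map_mul]
      rfl
    rw [h2]
    congr 1
  have z1 : c'' 1 = 0 := by
    apply hinj
    rw [hc'', f1, mul_zero, map_zero]
  have z3 : c'' 3 = 0 := by
    apply hinj
    rw [hc'', f3, mul_zero, map_zero]
  have z6 : c'' 6 = 0 := by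
    apply hinj
    rw [hc'', f6, mul_zero, map_zero]
  obtain ⟨m, hm⟩ := (hFCT V τV 1 hτ).2.2.2 c'' z1 z3 z6
  have hdK : dsc (Jc (2 : K)⁻¹ c) = ψ (dsc (Jc τV cV)) := by
    rw [← dsc_map, ← Jc_map]
    rfl
  -- `s a` is integral
  have hsa : s * a ∈ V := by
    obtain ⟨i, hi⟩ := hua
    have h1 : s * v i ∈ V := by
      have h3 : s * v i = γ i 1 := by
        have h4 := congrFun g1 i
        rw [mulVec3] at h4
        simp only [e1, Matrix.cons_val, Pi.smul_apply, smul_eq_mul] at h4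
        linear_combination -h4
      rw [h3]
      exact hγ.1 i 1
    have h5 : v i ≠ 0 := by
      intro h6
      apply hi.1
      rw [h6, zero_div]
    have h2 : s * a = s * v i * (v i / a)⁻¹ := by
      field_simp
    rw [h2]
    exact V.mul_mem _ _ h1 hi.2.2
  let sa : V := ⟨s * a, hsa⟩
  refine ⟨ψ (-(c'' 0 ^ 3 * c'' 7 * m ^ 2) * sa ^ 3 * D'), Subtype.mem _, ?_⟩
  have hsaK : ψ sa = s * a := rfl
  have hDK : ψ D' = γ.det⁻¹ := rfl
  have k0 : ψ (c'' 0) = γ.det⁻¹ * (r ^ 3 * κ) := by rw [hc'', f0]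
  have k7 : ψ (c'' 7) = -(s * μ) / r := by
    rw [hc'', eq_div_iff hr, mul_assoc, f7]
    field_simp
  rw [hdK, ← hds, hm]
  simp only [map_mul, map_pow, map_neg, hsaK, hDK, k0, k7]
  field_simp

end Pool.Agent.H47.AV3C
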